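import Mathlib
import Pool.Agent.Results.MP_0df558_gt.CompactCounterexample
import Pool.Agent.Y568.CQ.ED

set_option autoImplicit false

open Cardinal Order Set Topology Filter

namespace Pool.Agent.Results.MP_0df558_gt.ContinuousPreimages

open Pool.Agent.Results.MP_0df558_gt.CompactCounterexample

/-- `C_p(Y)` has a `T₀`-separating weakly sigma-point-finite family of cozero sets. -/
def HasFamily (Y : Type) [TopologicalSpace Y] : Prop :=
  ∃ 𝒰 : Set (Set (Cp Y)), (∀ U ∈ 𝒰, IsCozero U) ∧ T0Separating 𝒰 ∧ WeaklySigmaPointFinite 𝒰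

/-- families of the kind considered can be pulled back along continuous injections -/
theorem pullback {Z Z' : Type} [TopologicalSpace Z] [TopologicalSpace Z'] (φ : Z' → Z)
    (hφ : Continuous φ) (hi : Function.Injective φ) (𝒰 : Set (Set Z))
    (h1 : ∀ U ∈ 𝒰, IsCozero U) (h2 : T0Separating 𝒰) (h3 : WeaklySigmaPointFinite 𝒰) :
    ∃ 𝒰' : Set (Set Z'), (∀ U ∈ 𝒰', IsCozero U) ∧ T0Separating 𝒰' ∧
      WeaklySigmaPointFinite 𝒰' := by
  refine ⟨(fun U => φ ⁻¹' U) '' 𝒰, ?_, ?_, ?_⟩
  · rintro _ ⟨U, hU, rfl⟩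
    obtain ⟨g, hg, rfl⟩ := h1 U hU
    exact ⟨g ∘ φ, hg.comp hφ, rfl⟩
  · intro z w hzw
    obtain ⟨U, hU, h⟩ := h2 (φ z) (φ w) (fun h => hzw (hi h))
    exact ⟨φ ⁻¹' U, ⟨U, hU, rfl⟩, h⟩
  · obtain ⟨𝒱, hV1, hV2⟩ := h3
    refine ⟨fun n => (fun U => φ ⁻¹' U) '' 𝒱 n, fun n => image_mono (hV1 n), ?_⟩
    intro z
    apply Subset.antisymm
    · rintro _ ⟨U, hU, rfl⟩
      rw [hV2 (φ z)] at hU
      simp only [mem_iUnion] at hU ⊢
      obtain ⟨n, hn, hUn⟩ := hU
      refine ⟨n, ?_, ⟨U, hUn, rfl⟩⟩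
      have hn' : {U ∈ 𝒱 n | φ z ∈ U}.Finite := hn
      refine (hn'.image (fun U => φ ⁻¹' U)).subset ?_
      rintro _ ⟨⟨V, hV, rfl⟩, hz⟩
      exact ⟨V, ⟨hV, hz⟩, rfl⟩
    · intro W hW
      simp only [mem_iUnion] at hW
      obtain ⟨n, _, hWn⟩ := hW
      exact image_mono (hV1 n) hWn

/-- if `π` is a continuous map of `Y` onto `X` and `C_p(Y)` has such a family, then so has
`C_p(X)` -/
theorem descend {X Y : Type} [TopologicalSpace X] [TopologicalSpace Y] (π : Y → X)
    (hc : Continuous π) (hs : Function.Surjective π) (h : HasFamily Y) : HasFamily X := by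
  obtain ⟨𝒰, h1, h2, h3⟩ := h
  refine pullback (fun f : Cp X => (⟨f.1 ∘ π, f.2.comp hc⟩ : Cp Y)) ?_ ?_ 𝒰 h1 h2 h3
  · refine Continuous.subtype_mk ?_ _
    exact continuous_pi fun y => (continuous_apply (π y)).comp continuous_subtype_val
  · intro f g hfg
    apply Subtype.ext
    funext x
    obtain ⟨y, rfl⟩ := hs x
    exact congrFun (congrArg Subtype.val hfg) y

theorem mk_Col : #Col = 𝔠 := by
  have h2 : #(ℤ × Bool) = ℵ₀ := by
    simp
  have h1 : #(Set ℕ) = 𝔠 := by simp [mk_set]
  calc #Col = #(Set ℕ) * #(ℤ × Bool) := by simp [Col, mk_prod]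
    _ = 𝔠 := by
      rw [h1, h2]
      exact continuum_mul_aleph0

/-- `C_p(βD)` has no such family if `D` is discrete and `|D| > 𝔠` -/
theorem beta {D : Type} (hD : 𝔠 < #D) : ¬ HasFamily (Ultrafilter D) := by
  intro h
  have h1 : #K ≤ #D := by
    rw [Pool.Agent.H764R3.Stat.mk_KK, mk_Col]
    exact succ_le_of_lt hD
  obtain ⟨e⟩ := h1
  have : Nonempty K := inferInstance
  obtain ⟨f, hf⟩ : ∃ f : D → K, Function.Surjective f :=
    ⟨Function.invFun e, Function.invFun_surjective e.injective⟩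
  obtain ⟨hc, hs⟩ := Pool.Agent.Y568.CQ.map_cont_surj f hf
  obtain ⟨𝒰, h1, h2, h3⟩ := descend _ hc hs h
  exact main 𝒰 h1 h2 h3

/-- **Negative answers to Q1 and Q2 for large classes of compact spaces.**

1. If the space `Y` can be mapped continuously onto the Stone-Cech compactification of a discrete
   space `D` with more than continuum many points, then `C_p(Y)` has no `T₀`-separating weakly
   sigma-point-finite family of cozero sets.
2. This applies to every compact extremally disconnected space `Y` which has a disjoint family of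
   more than continuum many nonempty open sets.
3. In particular it applies to `Y = βD` for every discrete space `D` with more than continuum many
   points, which is a compact Hausdorff (hence a Lindelöf `Σ`-) space. -/
theorem result :
    (∀ (Y D : Type) [TopologicalSpace Y] (π : Y → Ultrafilter D), 𝔠 < #D → Continuous π →
      Function.Surjective π → ¬ HasFamily Y) ∧
    (∀ (Y D : Type) [TopologicalSpace Y] [CompactSpace Y] [T2Space Y] [ExtremallyDisconnected Y]
      (U : D → Set Y), 𝔠 < #D → (∀ d, IsOpen (U d)) → (∀ d, (U d).Nonempty) →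
      (Pairwise fun i j => Disjoint (U i) (U j)) → ¬ HasFamily Y) ∧
    (∀ D : Type, 𝔠 < #D → CompactSpace (Ultrafilter D) ∧ T2Space (Ultrafilter D) ∧
      IsLindelofSigma (Ultrafilter D) ∧ ¬ HasFamily (Ultrafilter D)) := by
  have main1 : ∀ (Y D : Type) [TopologicalSpace Y] (π : Y → Ultrafilter D), 𝔠 < #D →
      Continuous π → Function.Surjective π → ¬ HasFamily Y := fun Y D _ π hD hc hs h =>
    beta hD (descend π hc hs h)
  refine ⟨main1, ?_, ?_⟩
  · intro Y D _ _ _ _ U hD h1 h2 h3
    have : Nonempty D := by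
      rw [← mk_ne_zero_iff]
      exact ((zero_le (a := 𝔠)).trans_lt hD).ne'
    obtain ⟨π, hc, hs⟩ := Pool.Agent.Y568.CQ.onto h1 h2 h3
    exact main1 Y D π hD hc hs
  · intro D hD
    refine ⟨inferInstance, inferInstance, ?_, beta hD⟩
    refine ⟨{Set.univ}, {Set.univ}, ?_, by simp, countable_singleton _, ?_⟩
    · intro C hC
      rw [mem_singleton_iff.1 hC]
      exact isCompact_univ
    · intro C hC U _ hCU
      rw [mem_singleton_iff.1 hC] at hCU ⊢
      exact ⟨Set.univ, rfl, subset_rfl, hCU⟩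

end Pool.Agent.Results.MP_0df558_gt.ContinuousPreimages
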